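import Pool.Agent.Lib.MP_ae6bb1_pr.NV.Main

/-!
# The growth constant of the longest common subsequence when one letter dominates

There is one constant `c` with `1 ≤ c ≤ 8` such that for every probability law `μ` on a finite
alphabet with a letter `o` of mass `m` and `S = ∑_{a ≠ o} μ(a)²` small compared with `m²`,
`γ(μ) = m + (c + o(1)) S / m`, uniformly in the law and in the number of letters. In particular
`γ = 1 - p + c p² + o(p²)` for the law `(1 - p, p)` on two letters. The proof is in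
`Pool/Agent/Lib/MP_ae6bb1_pr/NV/`.
-/

set_option autoImplicit false

namespace Pool.Agent.Results.MP_ae6bb1_pr.DominantLetter

open MeasureTheory ProbabilityTheory Filter Topology

/-- Length of a longest common subsequence of `x_0, …, x_{n-1}` and `y_0, …, y_{n-1}`: the
largest `m` such that there are strictly increasing index sequences `i, j` of length `m` with
values below `n` and `x (i r) = y (j r)` for all `r`. -/
noncomputable def lcs {α : Type} (x y : ℕ → α) (n : ℕ) : ℕ :=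
  sSup {m | ∃ i j : Fin m → ℕ, StrictMono i ∧ StrictMono j ∧ (∀ r, i r < n) ∧ (∀ r, j r < n) ∧
    ∀ r, x (i r) = y (j r)}

theorem lcs_eq {α : Type} (x y : ℕ → α) (n : ℕ) : lcs x y n = LCSH.lcsLen x y n := rfl

/-- `S` is written as `∑ a, μ a ^ 2 - μ o ^ 2`. -/
theorem result : ∃ c : ℝ, 1 ≤ c ∧ c ≤ 8 ∧ ∀ ε : ℝ, 0 < ε → ∃ η : ℝ, 0 < η ∧
    ∀ (α : Type) [Fintype α] [MeasurableSpace α] [MeasurableSingletonClass α] (μ : α → ℝ),
    (∀ a, 0 ≤ μ a) → ∑ a, μ a = 1 →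
    ∀ o : α, 0 < μ o → ∑ a, μ a ^ 2 - μ o ^ 2 ≤ η * μ o ^ 2 →
    ∀ (Ω : Type) [MeasurableSpace Ω] (P : Measure Ω) [IsProbabilityMeasure P]
    (X Y : ℕ → Ω → α), (∀ n, Measurable (X n)) → (∀ n, Measurable (Y n)) →
    iIndepFun (fun k : ℕ ⊕ ℕ => Sum.elim X Y k) P →
    (∀ n a, P.real (X n ⁻¹' {a}) = μ a) → (∀ n a, P.real (Y n ⁻¹' {a}) = μ a) →
    ∃ γ : ℝ,
      (∀ᵐ ω ∂P, Tendsto (fun n : ℕ =>
        (lcs (fun i => X i ω) (fun i => Y i ω) n : ℝ) / n) atTop (𝓝 γ)) ∧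
      |γ - μ o - c * (∑ a, μ a ^ 2 - μ o ^ 2) / μ o| ≤ ε * (∑ a, μ a ^ 2 - μ o ^ 2) / μ o := by
  obtain ⟨c, hc1, hc8, h⟩ := NV.final_gam
  refine ⟨c, hc1, hc8, ?_⟩
  intro ε hε
  obtain ⟨η, hη, hη'⟩ := h ε hε
  refine ⟨η, hη, ?_⟩
  intro α _ _ _ μ h0 h1 o ho hS Ω _ P _ X Y hX hY hind hlX hlY
  classical
  have e : ∑ a, μ a ^ 2 - μ o ^ 2 = ∑ a ∈ Finset.univ.erase o, μ a ^ 2 := by
    rw [← Finset.add_sum_erase Finset.univ (fun a => μ a ^ 2) (Finset.mem_univ o)]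
    ring
  rw [e] at hS ⊢
  refine ⟨LCSH.gam ⟨μ, h0, h1⟩, ?_, ?_⟩
  · exact LCSH.lcs_tendsto ⟨μ, h0, h1⟩ P X Y ⟨hX, hY, hind, hlX, hlY⟩
  · exact hη' α ⟨μ, h0, h1⟩ o ho hS

end Pool.Agent.Results.MP_ae6bb1_pr.DominantLetter
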