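import Pool.Agent.Lib.MP_ae6bb1_pr.Final

/-!
# Second order asymptotics of the growth constant of the longest common subsequence

For every probability law `μ` on a finite alphabet the growth constant `γ(μ)` satisfies
`|γ(μ) - (2 ‖μ‖₂ - 2 ‖μ‖₃³/‖μ‖₂²)| ≤ C (‖μ‖₃³/‖μ‖₂²) (‖μ‖_∞/‖μ‖₂)^{1/2} (1 + log (1/‖μ‖₂))^6`
with an absolute constant `C`. For the uniform law on `k` letters this is
`γ_k = 2/√k - 2/k + O(k^{-5/4} (log k)^6)`. The proof is in `Pool/Agent/Lib/MP_ae6bb1_pr/`.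
-/

set_option autoImplicit false

namespace Pool.Agent.Results.MP_ae6bb1_pr.SecondOrder

open MeasureTheory ProbabilityTheory Filter Topology

/-- Length of a longest common subsequence of `x_0, …, x_{n-1}` and `y_0, …, y_{n-1}`: the
largest `m` such that there are strictly increasing index sequences `i, j` of length `m` with
values below `n` and `x (i r) = y (j r)` for all `r`. -/
noncomputable def lcs {α : Type} (x y : ℕ → α) (n : ℕ) : ℕ :=
  sSup {m | ∃ i j : Fin m → ℕ, StrictMono i ∧ StrictMono j ∧ (∀ r, i r < n) ∧ (∀ r, j r < n) ∧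
    ∀ r, x (i r) = y (j r)}

theorem lcs_eq {α : Type} (x y : ℕ → α) (n : ℕ) : lcs x y n = LCSH.lcsLen x y n := rfl

theorem result : ∃ C : ℝ, ∀ (α : Type) [Fintype α] [MeasurableSpace α]
    [MeasurableSingletonClass α] (μ : α → ℝ), (∀ a, 0 ≤ μ a) → ∑ a, μ a = 1 →
    ∀ (Ω : Type) [MeasurableSpace Ω] (P : Measure Ω) [IsProbabilityMeasure P]
    (X Y : ℕ → Ω → α), (∀ n, Measurable (X n)) → (∀ n, Measurable (Y n)) →
    iIndepFun (fun k : ℕ ⊕ ℕ => Sum.elim X Y k) P →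
    (∀ n a, P.real (X n ⁻¹' {a}) = μ a) → (∀ n a, P.real (Y n ⁻¹' {a}) = μ a) →
    ∃ γ : ℝ,
      (∀ᵐ ω ∂P, Tendsto (fun n : ℕ =>
        (lcs (fun i => X i ω) (fun i => Y i ω) n : ℝ) / n) atTop (𝓝 γ)) ∧
      |γ - (2 * Real.sqrt (∑ a, μ a ^ 2) - 2 * ((∑ a, μ a ^ 3) / ∑ a, μ a ^ 2))| ≤
        C * ((∑ a, μ a ^ 3) / ∑ a, μ a ^ 2) *
          Real.sqrt ((⨆ a, μ a) / Real.sqrt (∑ a, μ a ^ 2)) *
          (1 + Real.log (1 / Real.sqrt (∑ a, μ a ^ 2))) ^ 6 := by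
  obtain ⟨C, hC⟩ := LCSH.final_general
  refine ⟨C, ?_⟩
  intro α _ _ _ μ h0 h1 Ω _ P _ X Y hX hY hind hlX hlY
  classical
  exact hC α μ h0 h1 Ω P X Y hX hY hind hlX hlY

end Pool.Agent.Results.MP_ae6bb1_pr.SecondOrder
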